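import Pool.Agent.L7h3.CE.Defs

/-! Project CE: statements, group 1 (Euler part B, and the general lemmas of part A, C). Every theorem
is to be proved as `theorem s_XX : S_XX` (or from other statements as hypotheses where indicated). -/

namespace Pool.Agent.L7h3.CE
open Set Pool.Agent.Helper391.Lg

universe u v

/-! ### Part B: the Euler theorem for connected edge sets with all finite cuts even -/

/-- CYC (60 lines). `f` is not a bridge. Let `ends f = s(p, y)`. If `p = y` take `[f]`. Otherwise let `X` be
the set of vertices reachable from `p` in `Gr ends (I \ {f})`. If `y` is not in `X`, then the edges of `I`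
crossing `X` are exactly `f` (an edge of `I \ {f}` with one end in `X` has both ends in `X`), one edge, odd:
contradiction to `EvenI`. So `y` reaches `p` in `I \ {f}`; `tr_of_reachable` (Helper391/Lg) gives a list. -/
def S_CYC : Prop := ∀ (E : Type u) (V : Type v) (ends : E → Sym2 V) (I : Set E), EvenI ends I →
  ∀ f ∈ I, ∀ p ∈ ends f, ∃ l : List E, f ∈ l ∧ l.Nodup ∧ (∀ e ∈ l, e ∈ I) ∧ Tr ends p l p

/-- EVD (100 lines). Removing a closed trail keeps all finite cuts even: a closed trail crosses every `X`
an even number of times (induction on the list: a trail from `a` to `b` crosses `X` an even number of times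
iff `a ∈ X ↔ b ∈ X`). If `cr (I \ l) X` is finite then so is `cr I X` (`l` is finite), and
`cr I X` is the disjoint union of `cr (I \ l) X` and `cr l X`. -/
def S_EVD : Prop := ∀ (E : Type u) (V : Type v) (ends : E → Sym2 V) (I : Set E), EvenI ends I →
  ∀ (p : V) (l : List E), Tr ends p l p → l.Nodup → (∀ e ∈ l, e ∈ I) → EvenI ends (I \ {e | e ∈ l})

/-- EVC (80 lines). Components of an edge set with even finite cuts: they are connected, have even finite
cuts (for `X`, use `X ∩ W` with `W` the set of the vertices on edges of the component: an edge of `R` crosses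
`X ∩ W` iff it is in the component and crosses `X`), two components are equal or have no common
vertex, and `R` is the union of them. -/
def S_EVC : Prop := ∀ (E : Type u) (V : Type v) (ends : E → Sym2 V) (R : Set E), EvenI ends R →
  ∀ e ∈ R, e ∈ compE ends R e ∧ compE ends R e ⊆ R ∧ ConI ends (compE ends R e) ∧
    EvenI ends (compE ends R e) ∧
    (∀ f ∈ compE ends R e, compE ends R f = compE ends R e) ∧
    ∀ f ∈ R, f ∉ compE ends R e → ∀ g ∈ compE ends R e, ∀ x ∈ ends f, x ∉ ends g

/-- GROW (150 lines, from CYC, EVD, EVC). A closed trail from `p` to `p` inside `I` containing the given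
finite set. Induction on the number of edges of `F₀` (enlarged by the finitely many edges of `I` at `p`)
not on the trail: let `l` be a closed trail at `p` and `f` an edge of `F₀` not in `l`. As `I` is connected there is
a trail from `p` to an end of `f` through `f` (`tr_through`); it suffices to add the edges of this trail one after
another, so we may assume that `f` has an end `q` on `l` (or `q = p`). By EVD `I \ l` has
even cuts, by CYC there is a closed trail `m` in `I \ l` at `q` through `f`; split `l` at `q` (`tr_split`) and insert `m`. -/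
def S_GROW : Prop := ∀ (E : Type u) (V : Type v) (ends : E → Sym2 V), (∀ v, {e | v ∈ ends e}.Finite) →
  ∀ I : Set E, ConI ends I → EvenI ends I → ∀ p : V, (∃ e ∈ I, p ∈ ends e) → ∀ F₀ ⊆ I, F₀.Finite →
  ∃ l : List E, l ≠ [] ∧ l.Nodup ∧ (∀ e ∈ l, e ∈ I) ∧ Tr ends p l p ∧ (∀ e ∈ F₀, e ∈ l) ∧
    ∀ e ∈ I, p ∈ ends e → e ∈ l

/-- STEP (150 lines, from GROW, EVD, EVC). The same with all residual components infinite. Take `l` of GROW. The
residual edge set `I \ l` has even cuts, and finitely many components (each has a vertex on `l`, because
`I` is connected, and different components have no common vertex; locally finite). Let `Z` be the union of the finite components,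
a finite set with all degrees `dg` even (cuts `{v}`); `absorb` (Helper391/Lg/P_absorb) inserts `Z`. The residual components
of the new list are the infinite residual components of `l`. -/
def S_STEP : Prop := ∀ (E : Type u) (V : Type v) (ends : E → Sym2 V), (∀ v, {e | v ∈ ends e}.Finite) →
  ∀ I : Set E, ConI ends I → EvenI ends I → ∀ p : V, (∃ e ∈ I, p ∈ ends e) → ∀ F₀ ⊆ I, F₀.Finite →
  ∃ l : List E, l ≠ [] ∧ l.Nodup ∧ (∀ e ∈ l, e ∈ I) ∧ Tr ends p l p ∧ (∀ e ∈ F₀, e ∈ l) ∧
    (∀ e ∈ I, p ∈ ends e → e ∈ l) ∧
    ∀ e ∈ I, e ∉ l → (compE ends (I \ {x | x ∈ l}) e).Infinite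

/-- EUL (from STEP, EVD, EVC; one owner, 400 lines, who may cut it further). PROOF. An OBJECT is `(I, p)` with `I`
connected, infinite, even finite cuts, and `p` a vertex on an edge of `I`. For an object choose by STEP a closed trail
`Q = Q(I, p)` at `p` in `I` with the first edge of `I` (an injection `E → ℕ`), all edges of `I` at `p`, and all components of `I \ Q`
infinite. Components `J` of `I \ Q` are connected with even cuts, pairwise vertex-disjoint, have no edge at `p`, and each has
a vertex on an edge of `Q` (connectedness of `I`); write `Q = (q_1, ..., q_k)` with the vertices `p = v_0, v_1, ..., v_k = p` of the trail;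
choose `pos J` with `v_{pos J}` a vertex of `J`; `0 < pos J < k` and different `J` have different `pos`. CHILDREN of `(I, p)`: all
`(J, v_{pos J})`. Root: `(E, p₀)`. Objects of level `n` are pairwise disjoint (vertex-disjoint), all edges with number `< n` are on `Q`s of
levels `< n`, so every edge is on exactly one `Q`. For `e = q_j ∈ Q(I, p)`, `j < k`: `succ e` = head of `Q(J)` if a child `J` has
`pos J = j`, otherwise `q_{j+1}`. For `e = q_k` (last of `Q(I)`): `succ e = q'_{pos I + 1}` in the `Q'` of the parent; for the root
`succ (last) = head`. Bijective: the inverse is given by the mirror rule. For an object `(I, p)` that is not the root the only `a ∉ I` with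
`succ a ∈ I` is `q'_{pos I}` of the parent and the only `b ∈ I` with `succ b ∉ I` is the last edge of `Q(I)` (objects contained in `I` are
descendants). (4) For finite `S` take `P` = union of all `Q` of levels `< n`, `n ≥ 1` large: finite, contains `S`, and the
components of `Pᶜ` are the objects of level `n`. (3) If `Y` is closed under `succ` and its inverse, and only finitely many
pairs `(e, f)`, `e ∈ Y`, `f ∉ Y`, have a common vertex, take `n` with all these edges in `P`: every object of level `n` is inside `Y` or
disjoint from `Y` (it is connected), and by downward induction on the level (`n, n-1, ..., 0`) every object is: along `Q(I)` the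
edges `q_j, q_{j+1}` are joined by `succ` directly or through a child (`succ q_j` = head of `Q(J)` is in `J`, the last edge of `Q(J)` is in `J` and its
`succ` is `q_{j+1}`). So `Y` is empty or everything. -/
def S_EUL : Prop := ∀ (E : Type u) (V : Type v) [Countable E] [Infinite E] (ends : E → Sym2 V),
  EulI ends → ∃ succ : E → E, Function.Bijective succ ∧
    (∀ e, ∃ x, x ∈ ends e ∧ x ∈ ends (succ e)) ∧
    (∀ Y : Set E, Y.Nonempty → Yᶜ.Nonempty → (∀ e, e ∈ Y ↔ succ e ∈ Y) →
      ¬ {p : E × E | p.1 ∈ Y ∧ p.2 ∉ Y ∧ ∃ x, x ∈ ends p.1 ∧ x ∈ ends p.2}.Finite) ∧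
    ∀ S : Set E, S.Finite → ∃ P : Set E, P.Finite ∧ S ⊆ P ∧ ∀ e, e ∉ P →
      (compE ends Pᶜ e).Infinite ∧
      (∃! a, a ∉ compE ends Pᶜ e ∧ succ a ∈ compE ends Pᶜ e) ∧
      ∃! b, b ∈ compE ends Pᶜ e ∧ succ b ∉ compE ends Pᶜ e

/-! ### Part A: solid regions -/

/-- CNT (100 lines). Counting: the boundaries of the colour classes have
`2 |crossing edges| + |bd C|` edges together (every crossing edge is in two of them, every edge of `bd G C` in one). -/
def S_CNT : Prop := ∀ (V : Type u) (G : SimpleGraph V) (C : Set V) (f : V → ℕ) (hf : (f '' C).Finite),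
  (crs G C f).Finite → (bd G C).Finite →
  (∀ c, (bd G {v | v ∈ C ∧ f v = c}).Finite) ∧
  ∑ c ∈ hf.toFinset, (bd G {v | v ∈ C ∧ f v = c}).ncard = 2 * (crs G C f).ncard + (bd G C).ncard

/-- SOLU (40 lines, from CNT): the whole vertex set is solid. If `f` uses at least two colours, every class has boundary
at least 4 by `four`, so `4 m ≤ 2 crs` by CNT (bd univ is empty). -/
def S_SOLU : Prop := ∀ (V : Type u) [Nonempty V] (G : SimpleGraph V), Four G → Solid G Set.univ

/-- REF (180 lines, from CNT): solid refinement of a given colouring. Among all colourings `f` of `C` (values on `C`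
matter) with finitely many colours, finitely many crossing edges and refining `g`, the integer
`crs.ncard - 2 * (f '' C).ncard` is bounded below: by CNT and `four`, `4 * colours ≤ 2 * crs + (bd G C).ncard + 4`. Take a minimizing
`f`. A class `W = {v ∈ C | f v = c}` is solid: nonempty, finite boundary (CNT); for a colouring `f'` of `W` colour `v ∈ W` by `2 f' v + 1` and the
other `v` by `2 f v`: this refines `g`, has `|f '' C| - 1 + |f' '' W|` colours and `crs f + crs_W f'` crossing edges (disjoint union), and
minimality gives `2 |f' '' W| ≤ crs_W f' + 2`. -/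
def S_REF : Prop := ∀ (V : Type u) (G : SimpleGraph V), Four G → ∀ C : Set V, C.Nonempty →
  (bd G C).Finite → ∀ g : V → ℕ, (g '' C).Finite → (crs G C g).Finite →
  ∃ f : V → ℕ, (f '' C).Finite ∧ (crs G C f).Finite ∧
    (∀ u ∈ C, ∀ v ∈ C, f u = f v → g u = g v) ∧
    ∀ c ∈ f '' C, Solid G {v | v ∈ C ∧ f v = c}

/-- PACK (250 lines): two edge-disjoint connected spanning subgraphs of the finite quotient multigraph (Nash-Williams, Tutte).
Use `packing` of Helper391/Lg/P_packing (matroid union over `ZMod 2`) with both families equal to
`e = s(u, v) ↦ unit vector of f u + unit vector of f v` in `ℕ → ZMod 2`, `E0 = crs G C f`, `n = |f '' C| - 1`: the rank of a set `T` of crossing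
edges is `|f '' C| -` number of classes of colours joined by `T`; for `T ⊆ E0` let `g v` be a code of the class of `f v` under `T`, then the edges outside `T` contain
`crs G C g`, and `Solid.tight` for `g` gives `2 n ≤ |E0 \ T| + rk T + rk T`. Full rank means that no set `Θ` of colours is
separated. Compare `core_rank`, `core_conn`, `core_pack` in Helper391/Lg (adapt them). -/
def S_PACK : Prop := ∀ (V : Type u) (G : SimpleGraph V) (C : Set V), Solid G C → ∀ f : V → ℕ,
  (f '' C).Finite → (crs G C f).Finite → ∃ A B : Set (Sym2 V), A ⊆ crs G C f ∧ B ⊆ crs G C f ∧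
    Disjoint A B ∧ ∀ Θ : Set ℕ, (∃ u ∈ C, f u ∈ Θ) → (∃ v ∈ C, f v ∉ Θ) →
      (∃ e ∈ A, (∃ x ∈ e, f x ∈ Θ) ∧ ∃ y ∈ e, f y ∉ Θ) ∧
      ∃ e ∈ B, (∃ x ∈ e, f x ∈ Θ) ∧ ∃ y ∈ e, f y ∉ Θ

/-- GLUE (180 lines, from PACK). `A` = `A0` together with the `A_c` of the classes, `B` in the same way.
`conn`: the set reached from `u` is a union of classes, if it is not all of `C` use PACK with `Θ` = its colours. `faith`: for `S` let `K` be
the union of `S`, of the `K_c` and of the ends of all crossing edges; a path of `G` inside `C \ K` stays in one
class. `meet`: if `Z` splits a class use `B_c` (the cut inside the class is a subset), otherwise `Z` is a union of classes,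
use PACK with `Θ = f '' Z`. -/
def S_GLUE : Prop := ∀ (V : Type u) (G : SimpleGraph V) (C : Set V), Solid G C → ∀ f : V → ℕ,
  (f '' C).Finite → (crs G C f).Finite → (∀ c ∈ f '' C, Good G {v | v ∈ C ∧ f v = c}) → Good G C

/-- SING (10 lines) -/
def S_SING : Prop := ∀ (V : Type u) (G : SimpleGraph V) (v : V), Good G {v}

/-- SCON (40 lines): solid sets are connected (colour the component of `u` by 1 and the rest by 0: no crossing edge,
two colours). -/
def S_SCON : Prop := ∀ (V : Type u) (G : SimpleGraph V) (C : Set V), Solid G C →
  ∀ a ∈ C, ∀ b ∈ C, (SimpleGraph.fromEdgeSet (ins G C)).Reachable a b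

/-- NEST (80 lines, from REF, GLUE, SING). Colour the vertices of `S ∩ D` by different positive numbers and the rest by 0
(finitely many crossing edges, `G` is locally finite); refine by REF; if all classes are good then `D` is good by GLUE; so
some class is bad, and it contains no vertex of `S`, otherwise it is a singleton. -/
def S_NEST : Prop := ∀ (V : Type u) (G : SimpleGraph V), Four G → ∀ D : Set V, Bad G D →
  ∀ S : Set V, S.Finite → ∃ D' ⊆ D, Disjoint D' S ∧ Bad G D'

/-- LIM (see group 2 for its parts): a solid set `D ≠ V` which is the disjoint union of infinitely many good classes with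
finite boundaries (colouring `c`), such that cofinitely many classes together are connected, is good. -/
def S_LIM : Prop := ∀ (V : Type u) (G : SimpleGraph V), Four G → ∀ D : Set V, Solid G D →
  Dᶜ.Nonempty → ∀ c : V → ℕ, (c '' D).Infinite →
  (∀ j ∈ c '' D, (bd G {v | v ∈ D ∧ c v = j}).Finite ∧ Good G {v | v ∈ D ∧ c v = j}) →
  (∀ J₀ : Set ℕ, J₀.Finite → ∃ J₁ : Set ℕ, J₁.Finite ∧ J₀ ⊆ J₁ ∧
    ∀ a ∈ D, ∀ b ∈ D, c a ∉ J₁ → c b ∉ J₁ →
      (SimpleGraph.fromEdgeSet (ins G {x | x ∈ D ∧ c x ∉ J₁})).Reachable a b) →
  Good G D

/-- SPLIT (250 lines, from REF, GLUE, SING, SCON, NEST, LIM). `V` is countable (`countable_of_conn` in Helper391/Lg); enumerate it: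
`v_0, v_1, ...`. By NEST with `S = {v_0}` we may assume `v_0 ∉ D`, so `Dᶜ` is nonempty. Suppose there are no two disjoint bad subsets of
`D`. Construct `D = D_0 ⊇ D_1 ⊇ ...`, all bad: REF for `D_n` with the colouring that gives `v_n` its own colour yields a
colouring `f_n` of `D_n` with solid classes; not all are good (GLUE), exactly one is bad (two classes are disjoint), this is
`D_{n+1}`; `v_n ∉ D_{n+1}` (a class containing `v_n` is `{v_n}`, good by SING), the other classes are good, with finite boundaries. So `D` is the
disjoint union of the sets `D_n \ D_{n+1}`, each a finite union of good classes; colour `v ∈ D_n \ D_{n+1}` by `Nat.pair n (f_n v)`. The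
colours are infinitely many (`D_{n+1} ≠ D_n` infinitely often, because `v_n` leaves and `D_n` is nonempty: otherwise `D_n` is empty). LIM applies: for `J₀`
finite take `n` larger than all first components and `J₁` = all colours occurring on `D \ D_n` together with `J₀`; the set of the
`x ∈ D` with colour not in `J₁` is `D_n`, connected by SCON. So `D` is good, contradiction. -/
def S_SPLIT : Prop := ∀ (V : Type u) (G : SimpleGraph V), Four G → ∀ D : Set V, Bad G D →
  ∃ D₁ ⊆ D, ∃ D₂ ⊆ D, Disjoint D₁ D₂ ∧ Bad G D₁ ∧ Bad G D₂

/-- RAY (120 lines). Choose `x_n ∈ D_n` and a walk from `x_n` to `x_{n+1}` inside `D_n`; let `T` be the set of all edges of these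
walks. All `x_n` are in the component of `x_0` in `fromEdgeSet T`, which is infinite. `koenig` (Helper391/Lg/P_koenig) gives a ray with
edges in `T`; all but finitely many edges of `T` are inside `D_n`, and a ray uses every edge at most once. -/
def S_RAY : Prop := ∀ (V : Type u) (G : SimpleGraph V), (∀ v, (G.neighborSet v).Finite) →
  ∀ D : ℕ → Set V, (∀ n, D (n + 1) ⊆ D n) → (∀ n, (D n).Nonempty) → (∀ v, ∃ n, v ∉ D n) →
  (∀ n, ∀ a ∈ D n, ∀ b ∈ D n, (SimpleGraph.fromEdgeSet (ins G (D n))).Reachable a b) →
  ∃ r : ℕ → V, IsRay G r ∧ ∀ n, Ev r (D n)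

/-- EVQ (60 lines). Equivalent rays are eventually in the same sets with finite boundary: use `RayEquiv` with `S` = the ends of the
edges of `bd G D`. -/
def S_EVQ : Prop := ∀ (V : Type u) (G : SimpleGraph V) (D : Set V), (bd G D).Finite →
  ∀ r s : ℕ → V, IsRay G r → IsRay G s → RayEquiv G r s → Ev r D → Ev s D

/-- MAIN1 (100 lines, from SOLU, NEST, SPLIT, SCON, RAY, EVQ). Suppose `V` is not good; it is bad by SOLU. Construct bad sets
`D_0 = V ⊇ D_1 ⊇ ...` with `v_n ∉ D_{n+1}` (enumeration of `V`) and `r_n` not eventually in `D_{n+1}`: NEST with `S = {v_n}`, then SPLIT: `r_n` is eventually in at most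
one of two disjoint sets. RAY gives a ray `s` eventually in every `D_n`; it is equivalent to some `r_m`, which is
eventually in `D_{m+1}` by EVQ, contradiction. -/
def S_MAIN1 : Prop := ∀ (V : Type u) [Nonempty V] (G : SimpleGraph V), Four G →
  (∃ r : ℕ → ℕ → V, (∀ n, IsRay G (r n)) ∧ ∀ s, IsRay G s → ∃ n, RayEquiv G s (r n)) →
  Good G Set.univ

/-! ### Part C: parity and the final assembly -/

/-- PAR (100 lines): `parity_gen` (Helper391/Lg/P_parity_gen) with the index type of all `X` with finite boundary, `κ X = bd G X`,
`w X` = parity of `A ∩ bd G X`. If every edge of `B` is in an even number of the cuts `bd G X`, `X ∈ S`, then the symmetric difference `Y` of the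
`X ∈ S` has finite boundary not met by `B`, so `Y` is empty or everything by `Dec.meet`, so every edge of `G` is in an even
number of the cuts, and the sum of the `w X` is 0 (double counting). -/
def S_PAR : Prop := ∀ (V : Type u) (G : SimpleGraph V) (A B : Set (Sym2 V)), Dec G Set.univ A B →
  ∃ J ⊆ B, ∀ X : Set V, (bd G X).Finite → Even {e | e ∈ A ∪ J ∧ e ∈ bd G X}.ncard

/-- CUTF (50 lines): if only finitely many edges of `A` cross `X` then the cut of `G` is finite. Let `S` be the set of the ends of these
edges and `K` from `Dec.faith`; an edge of `G` outside `K` crossing `X` has its ends joined by edges of `A` avoiding `S`, and one of these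
edges crosses `X`, contradiction; finitely many edges meet `K`. -/
def S_CUTF : Prop := ∀ (V : Type u) (G : SimpleGraph V), (∀ v, (G.neighborSet v).Finite) →
  ∀ A B : Set (Sym2 V), Dec G Set.univ A B → ∀ X : Set V, (A ∩ bd G X).Finite → (bd G X).Finite

/-- ENDS (100 lines, from PAR, CUTF). `ends e = e` for `e ∈ A ∪ J` and a loop at one end of `e` otherwise (compare
`mk_eulk` in Helper391/Lg). The last property is `Dec.faith` for `S` = all ends of the edges in `P`. -/
def S_ENDS : Prop := ∀ (V : Type u) (G : SimpleGraph V), Four G → Good G Set.univ →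
  ∃ ends : G.edgeSet → Sym2 V, (∀ e, ∀ x ∈ ends e, x ∈ (e : Sym2 V)) ∧ EulI ends ∧
    ∀ P : Set G.edgeSet, P.Finite → ∃ K : Set V, K.Finite ∧ ∀ a, a ∉ K → ∀ b, b ∉ K →
      (SimpleGraph.fromEdgeSet (ins G Kᶜ)).Reachable a b → (Gr ends Pᶜ).Reachable a b

/-- Hamilton circle of a locally finite graph `H`, combinatorial form (the closure of `C` in the end compactification is a
circle through all vertices): `C` is 2-regular and spanning, it meets every finite cut of `H`, and every end has arbitrarily
small connected neighbourhoods `Z` (with finite boundary in `H`) which exactly two edges of `C` leave. -/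
def HamC {W : Type*} (H : SimpleGraph W) : Prop :=
  ∃ C : SimpleGraph W, C ≤ H ∧ (∀ v, (C.neighborSet v).ncard = 2) ∧
    (∀ X : Set W, X.Nonempty → Xᶜ.Nonempty → (bd H X).Finite → ∃ x ∈ X, ∃ y, y ∉ X ∧ C.Adj x y) ∧
    ∀ r : ℕ → W, IsRay H r → ∀ S : Set W, S.Finite → ∃ Z : Set W, Disjoint Z S ∧ (bd H Z).Finite ∧
      (∀ a ∈ Z, ∀ b ∈ Z, (SimpleGraph.fromEdgeSet (ins H Z)).Reachable a b) ∧
      Ev r Z ∧ (bd C Z).ncard = 2

/-- HAM (250 lines, from ENDS, EUL). `C.Adj e f` iff `e ≠ f` and (`f = succ e` or `e = succ f`). Two elements with a common vertex of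
`ends` have a common vertex, so `C ≤ L(G)` and (3) of EUL gives the condition on finite cuts of `L(G)`. `succ e ≠ e` and
`succ (succ e) ≠ e` by (3) (the sets `{e}`, `{e, succ e}` meet only finitely many edges). For a ray `r` of `L(G)` and `S` finite
take `P ⊇ S` of EUL (4), with at least two elements; let `K` be the finite set of ENDS for `P`. For a component `Z = compE ends Pᶜ e`:
all but finitely many edges `g` of `G` avoid `K`, and an edge `g = s(a, b)` with `a, b ∉ K` has `a, b` joined in `Gr ends Pᶜ`; so two edges
avoiding `K` with a common vertex are both in `Z` or both not in `Z`: the boundary of `Z` in `L(G)` is finite, and `r` (after it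
has left `P` and the edges meeting `K`) stays in one component `Z`. `Z` is connected in `L(G)` (its elements are joined by
chains in `Z` with common vertices of `ends`). `bd C Z` = the two pairs
`{a, succ a}`, `{b, succ b}` of (4); they are different, otherwise `a = succ b` and `b = succ a`, excluded. -/
def S_HAM : Prop := ∀ (V : Type u) [Infinite V] (G : SimpleGraph V), Four G → Good G Set.univ →
  HamC G.lineGraph

end Pool.Agent.L7h3.CE
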