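import Pool.Agent.L7h3.CE.Stm

/-! Project CE, group 2: the parts of LIM. For a colouring `k : V → ℕ` (colour `0` = outside of the region) the
graph `QG G k` has for every colour `j` in use a clique with the vertices `(j, inl e)`, `e` an edge of the boundary of the colour class `j`, and
five more vertices `(j, inr i)`; an edge `e` of `G` between the classes `j` and `j'` gives the edge between `(j, inl e)` and `(j', inl e)`. -/

namespace Pool.Agent.L7h3.CE
open Set Pool.Agent.Helper391.Lg

universe u

/-- colour class -/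
def Fib {V : Type u} (k : V → ℕ) (j : ℕ) : Set V := {v | k v = j}

/-- vertices of the clique expansion -/
def QV {V : Type u} (G : SimpleGraph V) (k : V → ℕ) : Type u :=
  {p : ℕ × (Sym2 V ⊕ Fin 5) // (∃ v, k v = p.1) ∧ ∀ e, p.2 = Sum.inl e → e ∈ bd G (Fib k p.1)}

/-- the clique expansion -/
def QG {V : Type u} (G : SimpleGraph V) (k : V → ℕ) : SimpleGraph (QV G k) where
  Adj p q := p ≠ q ∧ (p.1.1 = q.1.1 ∨ (p.1.2 = q.1.2 ∧ ∃ e, p.1.2 = Sum.inl e))
  symm := ⟨fun p q h => ⟨h.1.symm, h.2.elim (fun h1 => Or.inl h1.symm)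
    (fun h1 => Or.inr ⟨h1.1.symm, h1.2.choose, h1.1.symm.trans h1.2.choose_spec⟩)⟩⟩
  loopless := ⟨fun p h => h.1 rfl⟩

/-- the clique of the outside -/
def F0 {V : Type u} (G : SimpleGraph V) (k : V → ℕ) : Set (QV G k) := {p | p.1.1 = 0}

/-- the other vertices -/
def C1 {V : Type u} (G : SimpleGraph V) (k : V → ℕ) : Set (QV G k) := {p | p.1.1 ≠ 0}

/-- hypotheses on the colouring `k` -/
structure Qu {V : Type u} (G : SimpleGraph V) (k : V → ℕ) : Prop where
  four : Four G
  fin : ∀ j, (bd G (Fib k j)).Finite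
  inf : (Set.range k).Infinite
  zero : ∃ v, k v = 0
  sol : Solid G {v | k v ≠ 0}
  one : ∀ J₀ : Set ℕ, J₀.Finite → ∃ J₁ : Set ℕ, J₁.Finite ∧ J₀ ⊆ J₁ ∧ 0 ∈ J₁ ∧
    ∀ a b, k a ∉ J₁ → k b ∉ J₁ →
      (SimpleGraph.fromEdgeSet (ins G {x | k x ∉ J₁})).Reachable a b

/-- the conclusion of `decomp_reg` for `QG G k` and one region -/
structure DR {V : Type u} (G : SimpleGraph V) (k : V → ℕ) (A B : Set (Sym2 (QV G k))) : Prop where
  union : A ∪ B = {e | e ∈ (QG G k).edgeSet ∧ ∀ x ∈ e, x ∉ F0 G k}
  disj : Disjoint A B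
  out : ∀ p, p ∉ F0 G k → ∀ S : Set (QV G k), S.Finite →
    ∃ w, w ∉ S ∧ (SimpleGraph.fromEdgeSet B).Reachable p w
  conn : ∀ p ∈ C1 G k, ∀ q ∈ C1 G k, (SimpleGraph.fromEdgeSet A).Reachable p q
  faith : ∀ S : Set (QV G k), S.Finite → ∃ K : Set (QV G k), K.Finite ∧ S ⊆ K ∧
    ∀ p ∈ C1 G k \ K, ∀ q ∈ C1 G k \ K,
      (SimpleGraph.fromEdgeSet {e | e ∈ A ∧ ∀ x ∈ e, x ∉ K}).Reachable p q

/-- edges of `G` whose edge of the expansion is in `A` -/
def pull {V : Type u} (G : SimpleGraph V) (k : V → ℕ) (A : Set (Sym2 (QV G k))) : Set (Sym2 V) :=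
  {e | ∃ p q : QV G k, p.1.2 = Sum.inl e ∧ q.1.2 = Sum.inl e ∧ s(p, q) ∈ A}

/-- `pull A` together with the sets `A' j` of all classes `j ≠ 0` -/
def tot {V : Type u} (G : SimpleGraph V) (k : V → ℕ) (A : Set (Sym2 (QV G k)))
    (A' : ℕ → Set (Sym2 V)) : Set (Sym2 V) :=
  pull G k A ∪ {e | ∃ j, j ≠ 0 ∧ (∃ v, k v = j) ∧ e ∈ A' j}

/-- Q1 (120 lines): locally finite (a clique is finite, and `(j, inl e)` has at most one neighbour outside of its clique: `e` has
two ends) and connected (follow a path of `G`: an edge `e = s(a, b)` with `k a ≠ k b` is in both boundaries). -/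
def S_Q1 : Prop := ∀ (V : Type u) (G : SimpleGraph V) (k : V → ℕ), Qu G k →
  (∀ p, ((QG G k).neighborSet p).Finite) ∧ ∀ p q, (QG G k).Reachable p q

/-- Q2 (180 lines): if `P` contains some but not all vertices of a clique (at least 5 vertices) then this clique
gives at least 4 edges of the boundary (`a b ≥ 4` for `a + b ≥ 5`, `a, b ≥ 1`). Otherwise `P` is a union of cliques; let `U` be the union of the colour classes of these
cliques: nonempty, not everything (infinitely many colours), `bd G U` is finite (contained in the finitely many boundaries), and `e = s(a, b)` in `bd G U` gives the edge between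
`(k a, inl e)` and `(k b, inl e)` of the boundary of `P`, injectively; `Four.four`. -/
def S_Q2 : Prop := ∀ (V : Type u) (G : SimpleGraph V) (k : V → ℕ), Qu G k →
  ∀ P : Set (QV G k), P.Finite → P.Nonempty → 4 ≤ (bd (QG G k) P).ncard

/-- Q3 (180 lines). The only substantial field is `one`: let `Z ⊆ C1` have finite boundary. Let `J₀` be the set of the colours
of the vertices on edges of `bd Z` (finite), `J₁` from `Qu.one`. No clique with colour outside `J₁` is split by `Z`, and no
edge between two such cliques crosses `Z`; as `{x | k x ∉ J₁}` is connected in `G`, all cliques with colour outside `J₁` are in `Z`, or none is. The rest is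
finite (finitely many finite cliques). -/
def S_Q3 : Prop := ∀ (V : Type u) (G : SimpleGraph V) (k : V → ℕ), Qu G k →
  Reg (QG G k) (F0 G k) (fun _ : Fin 1 => C1 G k)

/-- Q4a (150 lines). Colourings of the expansion. Induction on the number of colours of `χ`. If some clique with colour `j ≠ 0` gets `a ≥ 2`
colours, identify these colours: the number of colours drops by `a - 1`, the number of bichromatic edges by at least the number of
bichromatic edges inside the clique, which is at least `2 (a - 1)` (a clique with `N ≥ 5` vertices coloured with exactly `a` colours: the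
complete graph on 4 or more vertices coloured with `a` colours has at least `2 (a - 1)` bichromatic edges: choose one vertex of each of the `a`
colours; besides the `a (a - 1) / 2` edges between them, every further vertex (there are at least `5 - a`) has `a - 1` more). If `χ` is constant on all cliques with colours `≠ 0` it is a colouring of
`{v | k v ≠ 0}` (via `k`), and the bichromatic edges are the crossing edges: `Qu.sol`. -/
def S_Q4A : Prop := ∀ (V : Type u) (G : SimpleGraph V) (k : V → ℕ), Qu G k →
  ∀ χ : QV G k → ℕ, (χ '' C1 G k).Finite → (crs (QG G k) (C1 G k) χ).Finite →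
    2 * (χ '' C1 G k).ncard ≤ (crs (QG G k) (C1 G k) χ).ncard + 2

/-- Q4b (150 lines; a general lemma on graphs). If all colourings of the complement of `F` satisfy the inequality, then condition (I)
holds. Let `U` be finite, disjoint from `F`, and `T ⊆ ins G U` (`opt_exists`, `h_opt` in Helper391/Lg reduce `0 ≤ h G F U` to
`0 ≤ cost G F U T`). Let `s` be the number of components of the graph `(U, T)`; `rk chi T = |U| - s` (only `≥` is needed; compare `rk_lower`,
`cost_bd`, `core_rank`). Colour the components of `(U, T)` by `1, ..., s` and `Fᶜ \ U` (infinite, so nonempty) by `0`. The bichromatic edges avoid `F`, meet `U` and are not in `T`: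
`2 (s + 1) ≤ |inc G F U| - |T| + 2`, so `cost = |inc| - |T| + 2 rk T - 2 |U| ≥ 2 s + 2 (|U| - s) - 2 |U| = 0`. -/
def S_Q4B : Prop := ∀ (W : Type u) (H : SimpleGraph W) (F : Set W), (∀ v, (H.neighborSet v).Finite) →
  Fᶜ.Infinite → (∀ χ : W → ℕ, (χ '' Fᶜ).Finite → (crs H Fᶜ χ).Finite →
    2 * (χ '' Fᶜ).ncard ≤ (crs H Fᶜ χ).ncard + 2) → Ipos H F

/-- QC (100 lines). `A` joins any two vertices of `C1` by a path avoiding `F0`; an edge of it inside a clique `j ≠ 0` is replaced by a path
of `A' j` (`Dec.conn`), an edge between `(j, inl e)` and `(j', inl e)` by the edge `e` of `pull A`. -/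
def S_QC : Prop := ∀ (V : Type u) (G : SimpleGraph V) (k : V → ℕ), Qu G k →
  ∀ A B, DR G k A B → ∀ A' B' : ℕ → Set (Sym2 V),
  (∀ j, j ≠ 0 → (∃ v, k v = j) → Dec G (Fib k j) (A' j) (B' j)) →
  ∀ a b, k a ≠ 0 → k b ≠ 0 → (SimpleGraph.fromEdgeSet (tot G k A A')).Reachable a b

/-- QF (200 lines). Let `S` be finite, `J₀` = colours of the elements of `S`, `S''` = the union of the cliques `J₀` (finite), `K''` from `DR.faith` for `S''`,
`J₁` = colours of the elements of `K''` (finite). `K` = `S`, the `K_j` (from `Dec.faith` of the class `j` for `S`), `j ∈ J₁`, and all ends of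
the edges of `bd G (Fib k j)`, `j ∈ J₁`. Let `a, b` be joined by a path in the region outside `K`; it uses no edge of the boundary of a class `j ∈ J₁`. If
`k a ∈ J₁` the path stays in this class: `Dec.faith`. Otherwise all vertices of the path have colours outside `J₁`; the cliques of `k a`, `k b` have vertices outside
`K''` (no vertex with colour outside `J₁` is in `K''`), joined by edges of `A` avoiding `K'' ⊇ S''`: all cliques on the way have colours outside `J₀`, their
classes contain no element of `S`, so translating as in QC gives a path avoiding `S`. -/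
def S_QF : Prop := ∀ (V : Type u) (G : SimpleGraph V) (k : V → ℕ), Qu G k →
  ∀ A B, DR G k A B → ∀ A' B' : ℕ → Set (Sym2 V),
  (∀ j, j ≠ 0 → (∃ v, k v = j) → Dec G (Fib k j) (A' j) (B' j)) →
  ∀ S : Set V, S.Finite → ∃ K : Set V, K.Finite ∧ S ⊆ K ∧
    ∀ a ∈ {v | k v ≠ 0} \ K, ∀ b ∈ {v | k v ≠ 0} \ K,
    (SimpleGraph.fromEdgeSet (ins G ({v | k v ≠ 0} \ K))).Reachable a b →
    (SimpleGraph.fromEdgeSet {e | e ∈ tot G k A A' ∧ ∀ x ∈ e, x ∉ S}).Reachable a b

/-- QM (150 lines, from Q3). If `Z` splits a class `j`, use `Dec.meet` of `B' j` (the cut of the class is contained in the cut of `Z`). Otherwise `Z` is a union of classes;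
`Z''` = the union of their cliques has finite boundary in `QG` (the edges of the cut of `Z` and the edges of `bd G {k ≠ 0}`), so by Q3 (`Reg.one`) `Z''` or `C1 \ Z''` is finite;
it is nonempty, and `DR.out` leads out of it by edges of `B`, which avoid `F0`: some edge of `B` joins `Z''` and `C1 \ Z''`, it is not inside a clique, so it gives an
edge of `pull B` crossing `Z`. -/
def S_QM : Prop := ∀ (V : Type u) (G : SimpleGraph V) (k : V → ℕ), Qu G k →
  ∀ A B, DR G k A B → ∀ A' B' : ℕ → Set (Sym2 V),
  (∀ j, j ≠ 0 → (∃ v, k v = j) → Dec G (Fib k j) (A' j) (B' j)) →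
  ∀ Z ⊆ {v | k v ≠ 0}, Z.Nonempty → ({v | k v ≠ 0} \ Z).Nonempty →
    (cut G {v | k v ≠ 0} Z).Finite → ∃ e ∈ tot G k B B', e ∈ bd G Z

/-- QD (80 lines). `tot A A'` and `tot B B'` consist of edges of `G` inside `{k ≠ 0}` and are disjoint: an edge of `pull A` has its ends in two different classes
(its two vertices `p ≠ q` have the same `inl e`, so different colours, both are colours of ends of `e`), the edges of `A' j` are inside one class. -/
def S_QD : Prop := ∀ (V : Type u) (G : SimpleGraph V) (k : V → ℕ), Qu G k →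
  ∀ A B, DR G k A B → ∀ A' B' : ℕ → Set (Sym2 V),
  (∀ j, j ≠ 0 → (∃ v, k v = j) → Dec G (Fib k j) (A' j) (B' j)) →
  tot G k A A' ⊆ ins G {v | k v ≠ 0} ∧ tot G k B B' ⊆ ins G {v | k v ≠ 0} ∧
    Disjoint (tot G k A A') (tot G k B B')

/-- QL (100 lines): assembly of LIM from Q1, Q2, Q3, Q4A, Q4B, QC, QF, QM, QD and `decomp_reg` (Helper391/Lg/P_decomp_reg).
`k v = c v + 1` for `v ∈ D` and `0` otherwise. -/
def S_QL : Prop := S_Q1.{u} → S_Q2.{u} → S_Q3.{u} → S_Q4A.{u} → S_Q4B.{u} → S_QC.{u} → S_QF.{u} →
  S_QM.{u} → S_QD.{u} → S_LIM.{u}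

end Pool.Agent.L7h3.CE
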