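import Pool.Agent.L7h6.CE.Cyc
import Pool.Agent.L7h6.CE.Evc
import Pool.Agent.L7h6.CE.Grow
import Pool.Agent.L7h6.CE.Evq
import Pool.Agent.L7h6.CE.Step
import Pool.Agent.L7h88.CE.Eul
import Pool.Agent.L7h63.CE.Cnt
import Pool.Agent.L7h63.CE.Ref
import Pool.Agent.L7h63.CE.Q4a
import Pool.Agent.L7h63.CE.Q4b
import Pool.Agent.L7h96.CE.Pack
import Pool.Agent.L7h99.CE.Glue
import Pool.Agent.L7h99.CE.Q2
import Pool.Agent.L7h99.CE.Q3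
import Pool.Agent.L7h78.CE.Q0
import Pool.Agent.L7h78.CE.Qc
import Pool.Agent.L7h78.CE.Ql
import Pool.Agent.L7h78.CE.Main1
import Pool.Agent.L7h10.CE.QF
import Pool.Agent.L7h10.CE.QM
import Pool.Agent.L7h29.CE.Par
import Pool.Agent.L7h29.CE.Cutf
import Pool.Agent.L7h29.CE.Ends
import Pool.Agent.L7h29.CE.Nest
import Pool.Agent.L7h61.CE.Split
import Pool.Agent.L7h61.CE.Ray
import Pool.Agent.L7h61.CE.Sing
import Pool.Agent.L7h60.CE.Ham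

/-! Project CE: assembly. -/

namespace Pool.Agent.L7h3.CE
open Set Pool.Agent.Helper391.Lg

universe u v

theorem eul : S_EUL.{u, v} :=
  L7h88.CE.s_EUL (L7h6.CE.s_STEP (L7h6.CE.s_GROW L7h6.CE.s_CYC L7h6.CE.s_EVD) L7h6.CE.s_EVD)
    L7h6.CE.s_EVD L7h6.CE.s_EVC

theorem glue : S_GLUE.{u} := L7h99.CE.s_GLUE L7h96.CE.s_PACK

theorem lim : S_LIM.{u} :=
  L7h78.CE.s_QL L7h78.CE.s_Q1 L7h99.CE.s_Q2 L7h99.CE.s_Q3 L7h63.CE.s_Q4A L7h63.CE.s_Q4B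
    L7h78.CE.s_QC L7h10.CE.s_QF (L7h10.CE.s_QM L7h99.CE.s_Q3) L7h78.CE.s_QD

theorem nest : S_NEST.{u} := L7h29.CE.s_NEST L7h63.CE.s_REF glue L7h61.CE.s_SING

theorem split : S_SPLIT.{u} :=
  L7h61.CE.s_SPLIT L7h63.CE.s_REF glue L7h61.CE.s_SING L7h63.CE.s_SCON nest lim

theorem main1 : S_MAIN1.{u} :=
  L7h78.CE.s_MAIN1 L7h63.CE.s_SOLU nest split L7h63.CE.s_SCON L7h61.CE.s_RAY L7h6.CE.s_EVQ

theorem ham : S_HAM.{u} :=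
  L7h60.CE.s_HAM (L7h29.CE.s_ENDS L7h29.CE.s_PAR L7h29.CE.s_CUTF) eul

end Pool.Agent.L7h3.CE
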