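import Pool.Agent.Helper391.Lg.Defs

/-! Project CE (MP_7f38c2_co): Hamilton circles in line graphs of 4-edge-connected locally finite
graphs with countably many ends: definitions. `bd G U` = edges of `G` with one end in `U` and one end
outside, `ins G X` = edges of `G` inside `X`, `Tr`, `Gr`, `dg` as in Helper391/Lg/Defs. -/

namespace Pool.Agent.L7h3.CE
open Set Pool.Agent.Helper391.Lg

/-- edges of `G` inside `C` with one end in `Z` and one end outside `Z` -/
def cut {V : Type*} (G : SimpleGraph V) (C Z : Set V) : Set (Sym2 V) := ins G C ∩ bd G Z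

/-- edges of `G` inside `C` whose two ends have different colours -/
def crs {V : Type*} (G : SimpleGraph V) (C : Set V) (f : V → ℕ) : Set (Sym2 V) :=
  {e | e ∈ ins G C ∧ ∃ u ∈ e, ∃ v ∈ e, f u ≠ f v}

/-- `C` is solid: nonempty, finite boundary, and every colouring of `C` with finitely many colours
(the colours used are `f '' C`) and with finitely many crossing edges has at least
`2 (number of colours - 1)` crossing edges -/
structure Solid {V : Type*} (G : SimpleGraph V) (C : Set V) : Prop where
  ne : C.Nonempty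
  fin : (bd G C).Finite
  tight : ∀ f : V → ℕ, (f '' C).Finite → (crs G C f).Finite →
    2 * (f '' C).ncard ≤ (crs G C f).ncard + 2

/-- `A`, `B` is a decomposition for `C`: disjoint sets of edges inside `C`; `A` connects `C`, also
near the ends; `B` meets every finite cut of `G[C]` -/
structure Dec {V : Type*} (G : SimpleGraph V) (C : Set V) (A B : Set (Sym2 V)) : Prop where
  subA : A ⊆ ins G C
  subB : B ⊆ ins G C
  disj : Disjoint A B
  conn : ∀ u ∈ C, ∀ v ∈ C, (SimpleGraph.fromEdgeSet A).Reachable u v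
  faith : ∀ S : Set V, S.Finite → ∃ K : Set V, K.Finite ∧ S ⊆ K ∧ ∀ u ∈ C \ K, ∀ v ∈ C \ K,
    (SimpleGraph.fromEdgeSet (ins G (C \ K))).Reachable u v →
    (SimpleGraph.fromEdgeSet {e | e ∈ A ∧ ∀ x ∈ e, x ∉ S}).Reachable u v
  meet : ∀ Z ⊆ C, Z.Nonempty → (C \ Z).Nonempty → (cut G C Z).Finite → ∃ e ∈ B, e ∈ bd G Z

/-- `C` has a decomposition -/
def Good {V : Type*} (G : SimpleGraph V) (C : Set V) : Prop := ∃ A B, Dec G C A B

/-- the standing hypotheses on `G` -/
structure Four {V : Type*} (G : SimpleGraph V) : Prop where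
  lf : ∀ v, (G.neighborSet v).Finite
  conn : ∀ u v, G.Reachable u v
  four : ∀ P : Set V, P.Nonempty → Pᶜ.Nonempty → (bd G P).Finite → 4 ≤ (bd G P).ncard

/-- bad region: solid and not good -/
def Bad {V : Type*} (G : SimpleGraph V) (C : Set V) : Prop := Solid G C ∧ ¬ Good G C

/-- the sequence `r` is eventually in `D` -/
def Ev {V : Type*} (r : ℕ → V) (D : Set V) : Prop := ∃ N, ∀ n, N ≤ n → r n ∈ D

/-- the edge set `I` is connected -/
def ConI {E V : Type*} (ends : E → Sym2 V) (I : Set E) : Prop :=
  ∀ e ∈ I, ∀ f ∈ I, ∀ x ∈ ends e, ∀ y ∈ ends f, (Gr ends I).Reachable x y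

/-- edges of `I` with one end in `X` and one end outside `X` -/
def cr {E V : Type*} (ends : E → Sym2 V) (I : Set E) (X : Set V) : Set E :=
  {e | e ∈ I ∧ (∃ x ∈ ends e, x ∈ X) ∧ ∃ y ∈ ends e, y ∉ X}

/-- all finite cuts of the edge set `I` are even -/
def EvenI {E V : Type*} (ends : E → Sym2 V) (I : Set E) : Prop :=
  ∀ X : Set V, (cr ends I X).Finite → Even (cr ends I X).ncard

/-- component of the edge `e` in the edge set `R` (edges with common vertices are joined) -/
def compE {E V : Type*} (ends : E → Sym2 V) (R : Set E) (e : E) : Set E :=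
  {f | f ∈ R ∧ ∃ x ∈ ends e, ∃ y ∈ ends f, (Gr ends R).Reachable x y}

/-- hypotheses of the Euler theorem -/
structure EulI {E V : Type*} (ends : E → Sym2 V) : Prop where
  fin : ∀ v, {e | v ∈ ends e}.Finite
  conn : ConI ends Set.univ
  even : EvenI ends Set.univ

end Pool.Agent.L7h3.CE
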